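import Pool.Agent.H869R3.TensorAsym

set_option autoImplicit false

namespace Pool.Agent.Results.MP_44217d_ag.CubeZeroAlgebras

open Pool.Agent.H869R3

/-- Let `k` be algebraically closed, `char k ≠ 2`. For a tensor `T` in `k ^ a ⊗ k ^ b ⊗ k ^ c` with
`max (a, b, c) ≥ 2`, the asymptotic rank of `T` is at most `max (a, b, c)` if and only if, for every
`ε > 0`, the limit statement of Q1 holds for the algebras `k ⊕ (k ^ (a ^ j) ⊕ k ^ (b ^ j)) ⊕ k ^ (c ^ j)`
of all large Kronecker powers `T ^ j`. Hence Q1 for the local algebras `k ⊕ V ⊕ U` with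
`V * V ⊆ U` and `(V ⊕ U) * U = 0` already implies the asymptotic rank conjecture for all tensors of
order 3 over `k`. -/
theorem result (k : Type) [Field k] [IsAlgClosed k] (h2 : (2 : k) ≠ 0) :
    (∀ (a b c : ℕ) (T : Fin a → Fin b → Fin c → k), 2 ≤ max a (max b c) →
      (asymRank T ≤ max a (max b c) ↔
        ∀ ε > 0, ∃ j₀ : ℕ, ∀ j ≥ j₀, RatioTendsToZero k (tensorAlg (tpow T j)) (1 + ε))) ∧
    ((∀ (V U : Type) [AddCommGroup V] [Module k V] [Module.Finite k V]
        [AddCommGroup U] [Module k U] [Module.Finite k U] (β : V →ₗ[k] V →ₗ[k] U)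
        (hβ : ∀ x y, β x y = β y x),
        ∀ ε > 0, RatioTendsToZero k (CommAlgCat.of k (QAlg β hβ)) (1 + ε)) →
      ∀ (a b c : ℕ) (T : Fin a → Fin b → Fin c → k), asymRank T ≤ max a (max b c)) := by
  have : Infinite k := IsAlgClosed.instInfinite
  have hmax : ∀ a b c : ℕ, maxDim (Fin a) (Fin b) (Fin c) = max a (max b c) := by
    intro a b c
    simp [maxDim]
  refine ⟨fun a b c T hM => ?_, fun hQ a b c T => ?_⟩
  · rw [← hmax] at hM ⊢
    exact ⟨fun hT ε hε => ratio_of_asymRank_le h2 T hM hT hε,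
      fun hT => asymRank_le_maxDim h2 T (by omega) hT⟩
  · rw [← hmax]
    rcases Nat.eq_zero_or_pos (maxDim (Fin a) (Fin b) (Fin c)) with h0 | hM
    · rw [h0]
      have ha : a = 0 := by
        rw [hmax] at h0
        omega
      subst ha
      have h1 : TRankLE (tpow T 1) 0 := by
        refine ⟨fun i => i.elim0, fun i => i.elim0, fun i => i.elim0, ?_⟩
        intro i
        exact (i 0).elim0
      have h3 : trank (tpow T 1) = 0 := Nat.le_zero.mp (Nat.sInf_le h1)
      refine csInf_le ⟨0, ?_⟩ ⟨1, le_rfl, ?_⟩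
      · rintro _ ⟨N, _, rfl⟩
        positivity
      · rw [h3]
        simp
    · exact asymRank_le_maxDim h2 T hM fun ε hε => ⟨0, fun j _ => hQ _ _ _ _ ε hε⟩

end Pool.Agent.Results.MP_44217d_ag.CubeZeroAlgebras
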