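import Pool.Agent.H869R3.Thresh

set_option autoImplicit false

namespace Pool.Agent.Results.MP_44217d_ag.MatrixMultiplicationExponent

open Pool.Agent.H869R3 Filter Topology

/-- The limit statement of Q1 for `Γ = Spec A`, with the exponent `1 + ε` replaced by `s`. -/
def RatioTendsToZero (k : Type) [Field k] (A : CommAlgCat.{0} k) (s : ℝ) : Prop :=
  Tendsto (fun n : ℕ => (defect k (pow k A n) : ℝ) / (Module.finrank k A : ℝ) ^ (s * n))
    atTop (𝓝 0)

/-- Let `k` be algebraically closed, `char k ≠ 2`, `Γ_m = Spec Abar_m` and `d = 1 + 2 m²` its degree.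
Then `⌊m/3⌋ ^ (ω n) ≤ d ^ n + δ(Γ_m ^ n)` and `δ(Γ_m ^ n) ≤ (1 + m² + 2 R(m)) ^ n - d ^ n`, where
`R(m)` is the rank of `m × m` matrix multiplication and `ω` its exponent. Hence `δ(Γ_m ^ n) / d ^ (s n)`
tends to `0` for all large `m` if `s > ω / 2`, and for no large `m` if `1 ≤ s < ω / 2`. In particular
`ω = 2` if and only if for every `ε > 0` the limit statement of Q1 holds for `Γ_m` for all large
`m`. -/
theorem result (k : Type) [Field k] [IsAlgClosed k] (h2 : (2 : k) ≠ 0) :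
    (∀ m n : ℕ, Module.finrank k (pow k (Abar k m) n) = (1 + 2 * m ^ 2) ^ n ∧
      DefectLE k (pow k (Abar k m) n)
        ((1 + m ^ 2 + 2 * mmRank k m) ^ n - (1 + 2 * m ^ 2) ^ n) ∧
      ((m / 3 : ℕ) : ℝ) ^ (omega k * n) ≤
        (1 + 2 * m ^ 2 : ℝ) ^ n + defect k (pow k (Abar k m) n)) ∧
    (∀ s : ℝ, omega k / 2 < s → ∃ m₀ : ℕ, ∀ m ≥ m₀, RatioTendsToZero k (Abar k m) s) ∧
    (∀ s : ℝ, 1 ≤ s → s < omega k / 2 →
      ∃ m₀ : ℕ, ∀ m ≥ m₀, ¬ RatioTendsToZero k (Abar k m) s) ∧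
    (omega k = 2 ↔ ∀ ε > 0, ∃ m₀ : ℕ, ∀ m ≥ m₀, RatioTendsToZero k (Abar k m) (1 + ε)) := by
  have hup : ∀ s : ℝ, omega k / 2 < s →
      ∃ m₀ : ℕ, ∀ m ≥ m₀, RatioTendsToZero k (Abar k m) s := by
    intro s hs
    obtain ⟨m₀, h⟩ := tendsto_Abar (k := k) h2 (ε := s - omega k / 2) (by linarith)
    refine ⟨m₀, fun m hm => ?_⟩
    have := h m hm
    rwa [add_sub_cancel] at this
  have hlow : ∀ s : ℝ, 1 ≤ s → s < omega k / 2 →
      ∃ m₀ : ℕ, ∀ m ≥ m₀, ¬ RatioTendsToZero k (Abar k m) s :=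
    fun s hs1 hs => not_tendsto_Abar h2 hs1 hs
  refine ⟨fun m n => ⟨?_, ?_, ?_⟩, hup, hlow, ?_, ?_⟩
  · rw [finrank_pow, finrank_Abar]
  · have h := pow_defectLE (Abar k m) (wit_Abar h2 (mmRank_spec k m)) n
    rwa [finrank_Abar] at h
  · have h := lower_Abar (k := k) h2 m n
    rw [finrank_Abar] at h
    push_cast at h
    exact h
  · intro h ε hε
    exact hup (1 + ε) (by rw [h]; linarith)
  · intro h
    by_contra hne
    have hω := two_le_omega k
    have hgt : 2 < omega k := lt_of_le_of_ne hω (Ne.symm hne)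
    obtain ⟨m₀, h0⟩ := h ((omega k / 2 - 1) / 2) (by linarith)
    obtain ⟨m₁, h1⟩ := hlow (1 + (omega k / 2 - 1) / 2) (by linarith) (by linarith)
    exact h1 (max m₀ m₁) (le_max_right _ _) (h0 _ (le_max_left _ _))

end Pool.Agent.Results.MP_44217d_ag.MatrixMultiplicationExponent
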