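import Pool.Agent.H869R3.MultiAsym

set_option autoImplicit false

namespace Pool.Agent.Results.MP_44217d_ag.TensorsOfAllOrders

open Pool.Agent.H869R3 Pool.Agent.H869R3.Multi

/-- Let `k` be algebraically closed, of any characteristic, and let `T` be a tensor of any order
`m ≥ 1` and any format over `k`, with a flattening of rank at least `2`. Then the asymptotic rank of
`T` equals the largest rank of a flattening of `T` if and only if, for every `ε > 0`, the limit
statement of Q1 holds for the apolar algebras of all large Kronecker powers of `T`. Hence Q1 for all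
finite schemes over `k` implies that the asymptotic rank of every tensor of every order equals its
largest flattening rank. -/
theorem result (k : Type) [Field k] [IsAlgClosed k] :
    (∀ (m : ℕ) (d : Fin m → ℕ) (T : (∀ i, Fin (d i)) → k), 0 < m → 2 ≤ maxFlat T →
      (asymRank T = maxFlat T ↔
        ∀ ε > 0, ∃ j₀ : ℕ, ∀ j ≥ j₀, RatioTendsToZero k (apolar (kpow T j)) (1 + ε))) ∧
    ((∀ A : CommAlgCat.{0} k, Module.Finite k A → Nontrivial A →
        ∀ ε > 0, RatioTendsToZero k A (1 + ε)) →
      ∀ (m : ℕ) (d : Fin m → ℕ) (T : (∀ i, Fin (d i)) → k), 0 < m → asymRank T = maxFlat T) := by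
  have : Infinite k := IsAlgClosed.instInfinite
  refine ⟨fun m d T hm hM => ⟨fun hT ε hε => ratio_of_asymRank_le hm T hM hT.le hε, fun hT =>
    le_antisymm (asymRank_le_maxFlat hm T (by omega) hT) (maxFlat_le_asymRank hm T)⟩,
    fun hQ m d T hm => ?_⟩
  by_cases hT : T = 0
  · rw [hT, asymRank_zero hm, maxFlat_zero]
    simp
  · have hM := maxFlat_pos hT
    refine le_antisymm (asymRank_le_maxFlat hm T hM fun ε hε => ⟨0, fun j _ =>
      hQ _ (finite_apolar (kpow T j)) ?_ ε hε⟩) (maxFlat_le_asymRank hm T)
    refine Module.nontrivial_of_finrank_pos (R := k) ?_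
    refine lt_of_lt_of_le ?_ (maxFlat_le (realises_apolar (kpow T j)))
    rw [maxFlat_kpow]
    exact Nat.one_le_pow _ _ hM

end Pool.Agent.Results.MP_44217d_ag.TensorsOfAllOrders
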