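import Pool.Agent.H826R3.SM.WAll

/-!
# Q1 is a statement on the Waring ranks of powers of forms in disjoint variables

For a form `F` of degree `s ≥ 1` let `d` be the dimension of the space of all its partial
derivatives (the dimension of its apolar algebra `A_F`).  The growth statement Q1 for `Spec A_F`
is equivalent to the statement that the Waring rank of `F(x₁) F(x₂) ⋯ F(x_n)` (product in disjoint
sets of variables) is at most `d^{(1+ε)n}` up to a factor tending to `0`; and Q1 for all finite
schemes is equivalent to the latter statement for all forms.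
-/

namespace Pool.Agent.Results.MP_44217d_ag.WaringRankReduction

open Pool.Agent.H826R3.SM

/-- Let `k` be an algebraically closed field of any characteristic.
(1) The limit statement of Q1 (`QOne k A`: for every `ε > 0`, `δ(Γ^{×n}) / d^{(1+ε)n} → 0`, where
`Γ = Spec A`, `d = dim A`) holds for all nonzero finite-dimensional commutative `k`-algebras `A`
if and only if for every nonzero dual form `Φ` of degree `s ≥ 1` in finitely many variables the
Waring rank statement holds (`WaringQOne s Φ`: for every `ε > 0` the Waring rank of the `n`-th
power of `Φ` in disjoint variables, divided by `d^{(1+ε)n}`, `d = dim S / Ann Φ`, tends to `0`).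
(2) For each such `Φ`, the limit statement of Q1 for the apolar algebra `S / Ann Φ` is equivalent
to the Waring rank statement for `Φ`. -/
theorem result (k : Type) [Field k] [IsAlgClosed k] :
    ((∀ (A : Type) [CommRing A] [Algebra k A] [Module.Finite k A] [Nontrivial A], QOne k A) ↔
      ∀ (σ : Type) [Finite σ] (s : ℕ) (Φ : MvPolynomial σ k →ₗ[k] k), 1 ≤ s → IsDualForm s Φ →
        Φ ≠ 0 → WaringQOne s Φ) ∧
    ∀ (σ : Type) [Finite σ] (s : ℕ) (Φ : MvPolynomial σ k →ₗ[k] k), 1 ≤ s → IsDualForm s Φ →
      Φ ≠ 0 → (QOne k (ApolarAlg Φ) ↔ WaringQOne s Φ) :=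
  ⟨all_iff k, fun _ _ _ _ hs hΦ hΦ0 => waring_iff hΦ hΦ0 hs⟩

end Pool.Agent.Results.MP_44217d_ag.WaringRankReduction
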